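import Mathlib

set_option autoImplicit false

open MeasureTheory Filter Finset Polynomial
open scoped BigOperators Topology ComplexConjugate

noncomputable section

namespace Pool.Agent.H97Z.JE

/-- `e(x) = exp(2 π i x)` -/
def ee (x : ℝ) : ℂ := Complex.exp (2 * Real.pi * x * Complex.I)

/-- `⌊n ^ c⌋` -/
def fl (c : ℝ) (n : ℕ) : ℕ := ⌊(n : ℝ) ^ c⌋₊

/-- `⌊n ^ c⌋ ^ 2` -/
def aa (c : ℝ) (n : ℕ) : ℕ := fl c n ^ 2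

/-- distinct positive non-integers -/
def Ok {k : ℕ} (c : Fin k → ℝ) : Prop :=
  Function.Injective c ∧ ∀ i, 0 < c i ∧ ∀ m : ℤ, c i ≠ m

/-- blocks `[x, x + L)` with `x ^ (1 - η) ≪ L ≪ x` -/
structure Blk {ι : Type} (F : Filter ι) (x L : ι → ℕ) : Prop where
  hx : Tendsto x F atTop
  pos : ∀ᶠ i in F, 0 < L i
  small : Tendsto (fun i => (L i : ℝ) / x i) F (𝓝 0)
  big : ∀ η : ℝ, 0 < η → Tendsto (fun i => (x i : ℝ) ^ (1 - η) / L i) F (𝓝 0)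

/-- an invertible measure preserving system, as an action of the integers -/
structure Sys (X : Type) [MeasurableSpace X] where
  μ : Measure X
  prob : IsProbabilityMeasure μ
  T : ℤ → X → X
  zero : ∀ x, T 0 x = x
  add : ∀ a b x, T (a + b) x = T a (T b x)
  mp : ∀ a, MeasurePreserving (T a) μ μ

variable {X : Type} [MeasurableSpace X]

instance (S : Sys X) : IsProbabilityMeasure S.μ := S.prob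

/-- measurable and bounded by one -/
def B1 (f : X → ℂ) : Prop := Measurable f ∧ ∀ x, ‖f x‖ ≤ 1

/-- ergodicity, in the form of the mean ergodic theorem -/
def Erg (S : Sys X) : Prop :=
  ∀ G : X → ℂ, B1 G → ∀ ε : ℝ, 0 < ε → ∃ H : ℕ, 0 < H ∧
    ∫ x, ‖𝔼 b ∈ range H, G (S.T b x)‖ ^ 2 ∂S.μ ≤ ‖∫ x, G x ∂S.μ‖ ^ 2 + ε

/-- eigenfunction with eigenvalue `ζ` -/
def Eig (S : Sys X) (χ : X → ℂ) (ζ : ℂ) : Prop :=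
  ‖ζ‖ = 1 ∧ ∀ (m : ℤ) (x : X), χ (S.T m x) = ζ ^ m * χ x

/-- box averages at the scales `Hs` for the map `T ^ v` -/
def U (S : Sys X) (v : ℤ) : List ℕ → (X → ℂ) → ℝ
  | [], f => (∫ x, f x ∂S.μ).re
  | H :: Hs, f => 𝔼 a ∈ range H, 𝔼 a' ∈ range H,
      U S v Hs fun x => f (S.T (v * a) x) * conj (f (S.T (v * a') x))

/-- large uniformity seminorm of order `t` -/
def Big (S : Sys X) (t : ℕ) (f : X → ℂ) (δ : ℝ) (H0 : ℕ) : Prop :=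
  ∀ Hs : List ℕ, Hs.length = t → (∀ H ∈ Hs, H0 ≤ H) → δ ≤ U S 1 Hs f

/-- the multiple averages, twisted by phases -/
def Av {k : ℕ} (S : Sys X) (c : Fin k → ℝ) (lam : Fin k → ℂ) (f : Fin k → X → ℂ) (N : ℕ)
    (x : X) : ℂ :=
  𝔼 n ∈ Icc 1 N, ∏ i, lam i ^ aa (c i) n * f i (S.T (aa (c i) n) x)

/-- one step of the polynomial exhaustion with base polynomial `b` and shift `h` -/
def stepL (b : ℤ[X]) (h : ℕ) (L : List ℤ[X]) : List ℤ[X] :=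
  (taylor (h : ℤ) b - b) :: (L.filter fun r => 1 ≤ (r - b).natDegree).flatMap
    fun r => [taylor (h : ℤ) r, r + (taylor (h : ℤ) b - b)]

/-- the family reduces to a linear family in at most `n` steps -/
def Cx : ℕ → List ℤ[X] → Prop
  | 0, L => ∀ r ∈ L, r.natDegree ≤ 1
  | n + 1, L => Cx n L ∨ ∃ b ∈ L, 2 ≤ b.natDegree ∧ ∀ h : ℕ, Cx n (stepL b h L)

/-! ### number theory -/

def S_weyl : Prop :=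
  ∀ (e : ℕ) (δ : ℝ), 0 < δ → ∃ 𝒯 : Finset (ℕ × ((ℕ → ℂ) → ℕ → ℂ)),
    (∀ τ ∈ 𝒯, 1 ≤ τ.1 ∧ τ.2 1 = 1 ∧ ∀ g : ℕ → ℂ, (∀ s, ‖g s‖ ≤ 1) → ∀ s, ‖τ.2 g s‖ ≤ 1) ∧
    ∃ δ' : ℝ, 0 < δ' ∧ ∃ S0 : ℕ, ∀ S, S0 ≤ S → ∀ g : ℕ → ℂ, (∀ s, ‖g s‖ ≤ 1) →
      ∀ P : ℝ[X], P.natDegree ≤ e + 1 → δ ≤ ‖𝔼 s ∈ range S, g s * ee (P.eval (s : ℝ))‖ →
        ∃ τ ∈ 𝒯, δ' ≤ ‖𝔼 s ∈ range S, τ.2 g s * ee (τ.1 * P.coeff (e + 1) * s)‖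

def S_e3 : Prop :=
  ∀ (ι : Type) (F : Filter ι) (x L : ι → ℕ), Blk F x L →
    ∀ (A : Type) [Fintype A] (e : A → ℝ) (κ : A → ι → ℝ) (y : A → ι → ℕ) (γ : ℝ) (lam : A → ℝ),
      0 < γ → (∀ a (m : ℕ), e a ≠ m) →
      (∀ a, Tendsto (fun i => (y a i : ℝ) / x i) F (𝓝 0)) →
      (∀ a, Tendsto (fun i => κ a i * (x i : ℝ) ^ e a / (x i : ℝ) ^ γ) F (𝓝 (lam a))) →
      (∃ a0, ∑ a with e a = e a0, lam a ≠ 0) →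
      Tendsto (fun i => 𝔼 t ∈ range (L i), ee (∑ a, κ a i * ((x i + t + y a i : ℕ) : ℝ) ^ e a))
        F (𝓝 0)

def S_blk : Prop :=
  ∀ (G : Filter ℕ), G ≤ atTop → ∀ (V : ℕ → ℕ → ℂ), (∀ N n, ‖V N n‖ ≤ 1) → ∀ δ : ℝ, 0 < δ →
    (∀ᶠ N in G, δ ≤ ‖𝔼 n ∈ Icc 1 N, V N n‖) →
    ∃ x L : ℕ → ℕ, Blk G x L ∧ ∀ᶠ N in G, δ / 4 ≤ ‖𝔼 t ∈ range (L N), V N (x N + t)‖

open Classical in
def S_W : Prop :=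
  ∀ (k : ℕ) (c : Fin k → ℝ), Ok c → ∀ (j0 : Fin k) (d : ℕ), 2 ≤ d → c j0 < d →
    ∃ (σ : ℤ) (lam : Fin k → ℝ) (jj : Fin k → ℕ), σ ^ 2 = 1 ∧ (∀ i, 1 ≤ jj i) ∧ lam j0 = 0 ∧
      (∀ i, (∀ j : ℕ, c i * d ≠ j * c j0) → lam i = 0) ∧
    ∀ (J : Finset (Fin k)), j0 ∈ J → ∀ (δ ε : ℝ) (S : ℕ), 0 < δ → 0 < ε → 0 < S →
      ∃ R0 : ℕ, ∀ R, R0 ≤ R → ∃ ε1 : ℝ, 0 < ε1 ∧ ∀ K : ℕ, 0 < K →
        (∀ i ∈ J, ∃ z : ℤ, |lam i * (K : ℝ) ^ jj i - z| ≤ ε1) →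
        ∀ (ι : Type) (F : Filter ι) (x L : ι → ℕ), Blk F x L →
          ∃ (q : ι → ℕ → ℕ) (W y : ι → ℕ → ℕ → ℝ) (G : ι → ℕ → ℕ → Prop),
            (∀ i r t, 0 ≤ W i r t) ∧
            (∀ V : ι → ℕ → ℂ, (∀ i n, ‖V i n‖ ≤ 1) →
              (∀ᶠ i in F, δ ≤ ‖𝔼 t ∈ range (L i), V i (x i + t)‖) →
              ∀ᶠ i in F, δ / 2 ≤ 𝔼 r ∈ Icc 1 R, 𝔼 t ∈ range (L i), if G i r t then
                W i r t * ‖𝔼 s ∈ range S, V i (x i + t + q i r * s)‖ else 0) ∧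
            (∀ r ∈ Icc 1 R, ∀ᶠ i in F, 𝔼 t ∈ range (L i), W i r t ≤ 2 ∧
              𝔼 t ∈ range (L i), (if G i r t then 0 else W i r t) ≤ ε) ∧
            (∀ i r t, G i r t → ∀ j ∈ J, ∃ P : ℤ[X],
              (∀ s < S, (fl (c j) (x i + t + q i r * s) : ℤ) = P.eval (s : ℤ)) ∧
              (c j < c j0 → P.natDegree < d) ∧
              (j = j0 → P.natDegree ≤ d ∧ P.coeff d = σ * ((K * r : ℕ) : ℤ) ^ d ∧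
                |(P.coeff (d - 1) : ℝ) - y i r t| ≤ ε)) ∧
            (∀ r ∈ Icc 1 R, ∀ ξ : ℝ, (∀ m : ℤ, ξ ≠ m) →
              Tendsto (fun i => 𝔼 t ∈ range (L i), (W i r t : ℂ) * ee (ξ * y i r t)) F (𝓝 0))

def S_e1 : Prop :=
  ∀ (k : ℕ) (c : Fin k → ℝ), Ok c → ∀ δ : ℝ, 0 < δ → ∃ Q : ℕ, 0 < Q ∧ ∀ lam : Fin k → ℂ,
    (∀ i, ‖lam i‖ = 1) → (∃ᶠ N in atTop, δ ≤ ‖𝔼 n ∈ Icc 1 N, ∏ i, lam i ^ aa (c i) n‖) →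
    ∀ i, lam i ^ Q = 1

def S_e2 : Prop :=
  ∀ (k : ℕ) (c : Fin k → ℝ), Ok c → ∀ Q : ℕ, 0 < Q → ∀ w : Fin k → ℕ → ℂ,
    (∀ i m, w i (m + Q) = w i m) →
    Tendsto (fun N : ℕ => 𝔼 n ∈ Icc 1 N, ∏ i, w i (fl (c i) n)) atTop
      (𝓝 (∏ i, 𝔼 m ∈ range Q, w i m))

open Classical in
def S_ll : Prop :=
  ∀ (k : ℕ) (c : Fin k → ℝ), Ok c → ∀ j0 : Fin k, ∃ d : ℕ, 1 ≤ d ∧
    ∀ (δ : ℝ) (S : ℕ), 0 < δ → 0 < S → ∃ R0 : ℕ, ∀ R, R0 ≤ R →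
      ∀ (G : Filter ℕ), G ≤ atTop → ∀ (V : ℕ → ℕ → ℂ), (∀ N n, ‖V N n‖ ≤ 1) →
        (∀ᶠ N in G, δ ≤ ‖𝔼 n ∈ Icc 1 N, V N n‖) →
        ∀ᶠ N in G, δ / 32 * R ≤ #{r ∈ Icc 1 R | ∃ n q : ℕ,
          δ / 32 ≤ ‖𝔼 s ∈ range S, V N (n + q * s)‖ ∧ ∀ j, c j ≤ c j0 → ∃ P : ℤ[X],
            (∀ s < S, (fl (c j) (n + q * s) : ℤ) = P.eval (s : ℤ)) ∧
            (j ≠ j0 → P.natDegree < d) ∧
            (j = j0 → P.natDegree ≤ d ∧ P.coeff d ^ 2 = (r : ℤ) ^ (2 * d))}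

/-! ### polynomial exhaustion -/

def S_cx : Prop :=
  ∀ D m : ℕ, ∃ n, ∀ L : List ℤ[X], L.length ≤ m → (∀ r ∈ L, r.natDegree ≤ D) → Cx n L

/-- conclusion of the exhaustion for families of at most `m` polynomials of degree at most `D`
satisfying `Pr` -/
def Ctrl (Pr : List ℤ[X] → Prop) (D m t : ℕ) : Prop :=
  ∀ (Λ : ℕ) (δ : ℝ), 0 < δ → ∃ δ' : ℝ, 0 < δ' ∧ ∃ H0 : ℕ, ∀ Hs : List ℕ, Hs.length = t →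
    (∀ H ∈ Hs, H0 ≤ H) → ∃ S0 : ℕ, ∀ S, S0 ≤ S →
      ∀ (X : Type) [MeasurableSpace X] (Y : Sys X) (v : ℤ) (f : X → ℂ)
        (L : List (ℤ[X] × (X → ℂ))), B1 f → L.length ≤ m → Pr (L.map Prod.fst) →
        (∀ p ∈ L, B1 p.2 ∧ 1 ≤ p.1.natDegree ∧ p.1.natDegree ≤ D ∧
          ∃ l : ℤ, l ≠ 0 ∧ |l| ≤ Λ ∧ p.1.leadingCoeff = v * l) →
        δ ≤ 𝔼 s ∈ range S,
          ‖∫ x, f x * (L.map fun p => p.2 (Y.T (p.1.eval (s : ℤ)) x)).prod ∂Y.μ‖ →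
        δ' ≤ U Y v Hs f

def S_lin : Prop := ∀ D m : ℕ, Ctrl (Cx 0) D m (m + 1)

def S_pet : Prop := ∀ D m : ℕ, ∃ t, Ctrl (fun _ => True) D m t

def S_semi : Prop :=
  ∀ (k : ℕ) (c : Fin k → ℝ), Ok c → ∀ j0 : Fin k, ∃ t : ℕ, ∀ δ : ℝ, 0 < δ →
    ∃ δ' : ℝ, 0 < δ' ∧ ∃ H0 : ℕ, ∀ (X : Type) [MeasurableSpace X] (S : Sys X)
      (G : Filter ℕ) [G.NeBot], G ≤ atTop → ∀ (f0 : ℕ → X → ℂ) (f : Fin k → X → ℂ)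
      (lam : Fin k → ℂ), (∀ N, B1 (f0 N)) → (∀ i, B1 (f i)) → (∀ i, ‖lam i‖ = 1) →
      (∀ i, c j0 < c i → f i = 1) →
      (∀ᶠ N in G, δ ≤ ‖∫ x, f0 N x * Av S c lam f N x ∂S.μ‖) → Big S (t + 2) (f j0) δ' H0

/-! ### spectral facts -/

def S_wl : Prop :=
  ∀ (X : Type) [MeasurableSpace X] (μ : Measure X) [IsProbabilityMeasure μ] (ι : Type)
    (𝒰 : Ultrafilter ι) (g : ι → X → ℂ), (∀ i, B1 (g i)) → ∃ G, B1 G ∧ ∀ φ, B1 φ →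
      Tendsto (fun i => ∫ x, g i x * φ x ∂μ) 𝒰 (𝓝 (∫ x, G x * φ x ∂μ))

def S_eig : Prop :=
  ∀ (X : Type) [MeasurableSpace X] (S : Sys X) (v : ℤ) (ζ : ℂ) (F : X → ℂ), ‖ζ‖ = 1 → B1 F →
    ∃ χ, B1 χ ∧ (∀ x, χ (S.T v x) = ζ * χ x) ∧
      (∀ ψ, B1 ψ → (∀ x, ψ (S.T v x) = ζ * ψ x) →
        ∫ x, F x * conj (ψ x) ∂S.μ = ∫ x, χ x * conj (ψ x) ∂S.μ) ∧
      ∀ ε : ℝ, 0 < ε → ∃ H : ℕ, 0 < H ∧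
        ∫ x, ‖𝔼 b ∈ range H, ζ⁻¹ ^ b * F (S.T (v * b) x)‖ ^ 2 ∂S.μ ≤ ∫ x, ‖χ x‖ ^ 2 ∂S.μ + ε

def S_u2 : Prop :=
  ∀ (X : Type) [MeasurableSpace X] (S : Sys X), Erg S → ∀ F : X → ℂ, B1 F → ∀ ε : ℝ, 0 < ε →
    ∃ χ ζ, B1 χ ∧ Eig S χ ζ ∧ ∫ x, F x * conj (χ x) ∂S.μ = (∫ x, ‖χ x‖ ^ 2 ∂S.μ : ℝ) ∧
      ∃ H1 : ℕ, 0 < H1 ∧ ∀ k1, 0 < k1 → ∃ H2 : ℕ, 0 < H2 ∧ ∀ k2, 0 < k2 →
        U S 1 [k1 * H1, k2 * H2] F ≤ 8 * ∫ x, ‖χ x‖ ^ 2 ∂S.μ + ε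

def S_char : Prop :=
  ∀ (k : ℕ) (c : Fin k → ℝ), Ok c → ∀ δ : ℝ, 0 < δ → ∃ Q : ℕ, 0 < Q ∧
    ∀ (X : Type) [MeasurableSpace X] (S : Sys X), Erg S →
      ∀ (lam : Fin k → ℂ) (f : Fin k → X → ℂ) (j : Fin k), (∀ i, ‖lam i‖ = 1) → (∀ i, B1 (f i)) →
        (∀ χ ζ, B1 χ → Eig S χ ζ → (ζ * lam j) ^ Q = 1 → ∫ x, f j x * conj (χ x) ∂S.μ = 0) →
        ∀ᶠ N in atTop, ∫ x, ‖Av S c lam f N x‖ ^ 2 ∂S.μ ≤ δ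

/-! ### consequences for ergodic systems -/

def S_conv : Prop :=
  ∀ (k : ℕ) (c : Fin k → ℝ), Ok c → ∀ (X : Type) [MeasurableSpace X] (S : Sys X), Erg S →
    ∀ f : Fin k → X → ℂ, (∀ i, B1 (f i)) →
      Tendsto (fun p : ℕ × ℕ => ∫ x, ‖Av S c 1 f p.1 x - Av S c 1 f p.2 x‖ ^ 2 ∂S.μ)
        (atTop ×ˢ atTop) (𝓝 0)

def S_rec : Prop :=
  ∀ a b : ℝ, Ok ![a, b] → ∀ (X : Type) [MeasurableSpace X] (S : Sys X), Erg S →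
    ∀ A : Set X, MeasurableSet A → S.μ A ≠ 0 → ∀ n0 : ℕ, ∃ n, n0 ≤ n ∧
      S.μ (A ∩ S.T (aa a n) ⁻¹' A ∩ S.T (aa b n) ⁻¹' A) ≠ 0

def S_dec : Prop :=
  ∀ (X : Type) [TopologicalSpace X] [CompactSpace X] [TopologicalSpace.MetrizableSpace X]
    [MeasurableSpace X] [BorelSpace X] (S : Sys X),
    (∀ m, Continuous (S.T m)) → ∃ κ : ProbabilityTheory.Kernel X X,
      ProbabilityTheory.IsMarkovKernel κ ∧ S.μ.bind κ = S.μ ∧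
      ∀ᵐ x ∂S.μ, ∃ S' : Sys X, S'.μ = κ x ∧ S'.T = S.T ∧ Erg S'

end Pool.Agent.H97Z.JE
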